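import Pool.Agent.NA.Stmts

/-! NAL, row FNA: the final lemma (helper39). -/

set_option autoImplicit false

open Finset Filter Topology

noncomputable section

namespace Pool.Agent.NA.H39

open Pool.Agent.BC Pool.Agent.NA

theorem fna (hTre : TreStmt) (hSch : SchStmt) : FnaStmt := by
  classical
  intro X _ _ _ z C B M L V hz hC hL0 hL hM hV hVs hdiv
  set Y := (Submodule.span ℝ (Set.range z)).topologicalClosure with hY
  have hYc : IsClosed (Y : Set X) := Submodule.isClosed_topologicalClosure _
  -- B is positive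
  have hB : 0 < B := by
    by_contra hB
    have hB0 : B ≤ 0 := not_lt.1 hB
    apply hdiv (1 / 2) ⟨by norm_num, by norm_num⟩
    refine ⟨0, ?_⟩
    have h1 : ∀ k : ℕ, V k ⌊(1 / 2 : ℝ) * L k⌋₊ = 0 := by
      intro k
      have hLk : ∀ k, 1 ≤ L k := by
        intro k
        induction k with
        | zero => omega
        | succ k ih =>
          rw [hL]
          have := hM k
          exact Nat.mul_pos (by omega) (by omega)
      have h2 : ⌊(1 / 2 : ℝ) * L k⌋₊ < L k := by
        rw [Nat.floor_lt (by positivity)]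
        have : (1 : ℝ) ≤ L k := by exact_mod_cast hLk k
        linarith
      have h3 := (hV k _ h2).1
      have h4 : ‖V k ⌊(1 / 2 : ℝ) * L k⌋₊‖ ≤ 0 := h3.trans hB0
      exact norm_le_zero_iff.1 h4
    simp only [h1]
    exact tendsto_const_nhds
  have h00 : ‖V 0 0‖ ≤ B := (hV 0 0 (by omega)).1
  set c : ℝ := (2 * B)⁻¹ with hc
  have hcpos : 0 < c := by positivity
  -- the tree
  obtain ⟨g, hgY, hgL, hgd⟩ := hTre X Y M L (fun k i => c • (V k i - V 0 0)) hYc hL0 hL hM
    (by
      intro k i hi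
      obtain ⟨h1, h2⟩ := hV k i hi
      refine ⟨Y.smul_mem _ h2, ?_⟩
      rw [norm_smul, Real.norm_eq_abs, abs_of_pos hcpos]
      have h3 : ‖V k i - V 0 0‖ ≤ 2 * B := by
        have := norm_sub_le (V k i) (V 0 0)
        linarith
      calc c * ‖V k i - V 0 0‖ ≤ c * (2 * B) := mul_le_mul_of_nonneg_left h3 hcpos.le
        _ = 1 := by rw [hc, inv_mul_cancel₀ (by positivity)])
    (by
      intro k i hi
      show ∑ m ∈ range (M k), c • (V (k + 1) (i * M k + m) - V 0 0) = (M k : ℝ) • (c • (V k i - V 0 0))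
      rw [← Finset.smul_sum, Finset.sum_sub_distrib, hVs k i hi, Finset.sum_const,
        Finset.card_range, smul_comm, smul_sub, ← Nat.cast_smul_eq_nsmul ℝ]
      rw [smul_sub, smul_sub])
  refine ⟨Y, hYc, ⟨z, fun i => Submodule.le_topologicalClosure _
    (Submodule.subset_span (Set.mem_range_self i)), ?_⟩, g, hgY, ⟨1, hgL⟩, ?_⟩
  · intro y hy
    exact hSch X z C hz (fun a m n hmn => hC a m n hmn) y hy
  · intro hae
    have hnd : ∀ t ∈ Set.Ioo (0 : ℝ) 1, ¬ DifferentiableAt ℝ g t := by
      intro t ht hd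
      obtain ⟨v, hv⟩ := hgd t ht hd
      apply hdiv t ht
      refine ⟨(2 * B) • v + V 0 0, ?_⟩
      have h1 := (hv.const_smul (2 * B)).add_const (V 0 0)
      refine h1.congr fun k => ?_
      show (2 * B) • (c • (V k ⌊t * L k⌋₊ - V 0 0)) + V 0 0 = V k ⌊t * L k⌋₊
      rw [smul_smul, hc, mul_inv_cancel₀ (by positivity), one_smul, sub_add_cancel]
    have h1 : MeasureTheory.volume (Set.Ioo (0 : ℝ) 1) = 0 := by
      refine MeasureTheory.measure_mono_null ?_ (MeasureTheory.ae_iff.1 hae)
      intro t ht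
      exact hnd t ht
    rw [Real.volume_Ioo] at h1
    norm_num at h1

end Pool.Agent.NA.H39
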