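import Pool.Agent.NA.Stmts

/-! NAL, row NRM: finitely many norming functionals (helper39). -/

set_option autoImplicit false

open Finset Filter Topology

noncomputable section

namespace Pool.Agent.NA.H39

open Pool.Agent.BC Pool.Agent.NA

theorem nrm : NrmStmt := by
  classical
  intro X _ _ E hE ζ hζ
  have hdual : ∀ y : X, ∃ g : X →L[ℝ] ℝ, ‖g‖ ≤ 1 ∧ g y = ‖y‖ := by
    intro y
    obtain ⟨g, hg, hgy⟩ := exists_dual_vector'' ℝ y
    exact ⟨g, hg, by rw [hgy]; rfl⟩
  choose g hg1 hgy using hdual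
  have hcomp : IsCompact ((fun e : E => (e : X)) '' Metric.sphere (0 : E) 1) :=
    (isCompact_sphere (0 : E) 1).image continuous_subtype_val
  obtain ⟨t, ht⟩ := hcomp.elim_nhds_subcover' (fun y _ => {e : X | 1 - ζ < g y e})
    (fun y hy => by
      refine IsOpen.mem_nhds (isOpen_lt continuous_const (g y).continuous) ?_
      obtain ⟨e, he, rfl⟩ := hy
      have h1 : ‖(e : X)‖ = 1 := by
        rw [mem_sphere_zero_iff_norm] at he
        exact he
      show 1 - ζ < g (e : X) (e : X)
      rw [hgy, h1]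
      linarith)
  let e0 := Fintype.equivFin (Option t)
  refine ⟨Fintype.card (Option t), fun j => (e0.symm j).elim 0 (fun y => g (y : _)), ?_, ?_⟩
  · intro j
    show ‖(e0.symm j).elim (0 : X →L[ℝ] ℝ) (fun y => g (y : _))‖ ≤ 1
    rcases h : e0.symm j with _ | y
    · rw [Option.elim_none, norm_zero]
      exact zero_le_one
    · rw [Option.elim_some]
      exact hg1 _
  · intro e he
    by_cases h0 : e = 0
    · refine ⟨e0 none, ?_⟩
      simp [h0]
    · have hn : 0 < ‖e‖ := norm_pos_iff.2 h0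
      have hmem : (‖e‖⁻¹ • e) ∈ (fun e : E => (e : X)) '' Metric.sphere (0 : E) 1 := by
        refine ⟨‖e‖⁻¹ • ⟨e, he⟩, ?_, rfl⟩
        rw [mem_sphere_zero_iff_norm, norm_smul, norm_inv, norm_norm]
        exact inv_mul_cancel₀ hn.ne'
      obtain ⟨y, hyt, hy⟩ := Set.mem_iUnion₂.1 (ht hmem)
      refine ⟨e0 (some ⟨y, hyt⟩), ?_⟩
      have h1 : 1 - ζ < g (y : X) (‖e‖⁻¹ • e) := hy
      rw [map_smul, smul_eq_mul] at h1
      have h2 : (1 - ζ) * ‖e‖ ≤ g (y : X) e := by
        have h3 := mul_lt_mul_of_pos_right h1 hn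
        have h4 : ‖e‖⁻¹ * g (y : X) e * ‖e‖ = g (y : X) e := by
          field_simp
        rw [h4] at h3
        exact h3.le
      simpa using h2

end Pool.Agent.NA.H39
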